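import Pool.Agent.U41.PH.Stm0

/-!
# Project PH, package SLg: the large primes
-/

set_option autoImplicit false

namespace Pool.Agent.U41.PH

open MvPolynomial Finset

namespace SLgAux

lemma card_box (k H : ℕ) : (box k H).card = (2 * H + 1) ^ k := by
  unfold box
  rw [Fintype.card_piFinset_const, Int.card_Icc]
  congr 1
  omega

lemma pt_cons {k : ℕ} (M : ℕ) (a x : Fin (k + 1) → ℤ) :
    pt M a x = Fin.cons (a 0 + M * x 0) (pt M (Fin.tail a) (Fin.tail x)) := by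
  funext j
  refine Fin.cases ?_ (fun j => ?_) j
  · rfl
  · rfl

lemma pt_succ {k : ℕ} (M : ℕ) (a x : Fin (k + 1) → ℤ) :
    pt M a x ∘ Fin.succ = pt M (Fin.tail a) (Fin.tail x) := rfl

lemma eval_succ {k : ℕ} (M : ℕ) (a x : Fin (k + 1) → ℤ) (h : MvPolynomial (Fin k) ℤ) :
    eval (pt M a x) (rename Fin.succ h) = eval (pt M (Fin.tail a) (Fin.tail x)) h := by
  rw [eval_rename, pt_succ]

lemma eval_W {k : ℕ} (M : ℕ) (a x : Fin (k + 1) → ℤ) (W : MvPolynomial (Fin (k + 1)) ℤ) :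
    eval (pt M a x) W = ((finSuccEquiv ℤ k W).map
      (eval (pt M (Fin.tail a) (Fin.tail x)))).eval (a 0 + M * x 0) := by
  rw [pt_cons, eval_eq_eval_mv_eval']

lemma fibre (h1 : S_C1) {k : ℕ} (h g : MvPolynomial (Fin k) ℤ) (W : MvPolynomial (Fin (k + 1)) ℤ)
    (i : ℕ) (hg : g = (finSuccEquiv ℤ k W).coeff i) {Y M : ℕ} (a : Fin (k + 1) → ℤ) (hM : Sm M Y)
    (H : ℕ) (x' : Fin k → ℤ)
    (hS : eval (pt M (Fin.tail a) x') h ≠ 0 → ∀ S : Finset ℕ,
      (∀ p ∈ S, p.Prime ∧ H < p ∧ (p : ℤ) ∣ eval (pt M (Fin.tail a) x') h) →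
        S.card ≤ h.totalDegree + 1)
    (B : Finset (Fin (k + 1) → ℤ))
    (hB : ∀ x ∈ B, Fin.tail x = x' ∧ x ∈ box (k + 1) H ∧ ∃ p : ℕ, p.Prime ∧ Y < p ∧ 2 * H + 1 < p ∧
      eval (pt M a x) (rename Fin.succ h) ≠ 0 ∧
      (p : ℤ) ∣ eval (pt M a x) (rename Fin.succ h) ∧
      ¬ (p : ℤ) ∣ eval (pt M a x) (rename Fin.succ g) ∧ (p : ℤ) ∣ eval (pt M a x) W) :
    B.card ≤ 2 * (finSuccEquiv ℤ k W).natDegree * (h.totalDegree + 1) := by
  classical
  by_cases hz : eval (pt M (Fin.tail a) x') h = 0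
  · have h0 : B = ∅ := by
      rw [eq_empty_iff_forall_notMem]
      intro x hx
      obtain ⟨e1, _, p, _, _, _, e2, _⟩ := hB x hx
      rw [eval_succ, e1] at e2
      exact e2 hz
    rw [h0, card_empty]
    exact Nat.zero_le _
  set v := eval (pt M (Fin.tail a) x') h with hv
  set D := (finSuccEquiv ℤ k W).natDegree with hD
  set S' := (v.natAbs.primeFactors).filter (fun p => 2 * H + 1 < p ∧ Y < p ∧
    ¬ (p : ℤ) ∣ eval (pt M (Fin.tail a) x') g) with hS'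
  have hS'c : S'.card ≤ h.totalDegree + 1 := by
    refine hS hz S' fun p hp => ?_
    obtain ⟨e1, e2, e3, e4⟩ := mem_filter.1 hp
    refine ⟨Nat.prime_of_mem_primeFactors e1, by omega, ?_⟩
    exact Int.natCast_dvd.2 (Nat.dvd_of_mem_primeFactors e1)
  set f := (finSuccEquiv ℤ k W).map (eval (pt M (Fin.tail a) x')) with hf
  have hfib : ∀ p ∈ S', ((Icc (-(H : ℤ)) H).filter
      fun t => (p : ℤ) ∣ f.eval (a 0 + M * t)).card ≤ 2 * D := by
    intro p hp
    obtain ⟨e1, e2, e3, e4⟩ := mem_filter.1 hp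
    have hpp := Nat.prime_of_mem_primeFactors e1
    have hpM : ¬ p ∣ M := fun hd => by
      have := hM.2 p hpp hd
      omega
    have h2 := h1 f p M (a 0) H hpp hpM ⟨i, by
      rw [hf, Polynomial.coeff_map, ← hg]
      exact e4⟩
    have h3 : f.natDegree ≤ D := Polynomial.natDegree_map_le
    have hp0 : (0 : ℝ) < p := by exact_mod_cast hpp.pos
    have h4 : (2 * (H : ℝ) + 1) / p ≤ 1 := by
      rw [div_le_one hp0]
      exact_mod_cast e2.le
    have h5 : (((Icc (-(H : ℤ)) H).filter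
        fun t => (p : ℤ) ∣ f.eval (a 0 + M * t)).card : ℝ) ≤ 2 * D := by
      refine h2.trans ?_
      have h6 : (f.natDegree : ℝ) ≤ D := by exact_mod_cast h3
      calc (f.natDegree : ℝ) * ((2 * (H : ℝ) + 1) / p + 1) ≤ D * (1 + 1) :=
            mul_le_mul h6 (by linarith) (by positivity) (by positivity)
        _ = 2 * D := by ring
    exact_mod_cast h5
  have hinj : Set.InjOn (fun x : Fin (k + 1) → ℤ => x 0) (B : Set (Fin (k + 1) → ℤ)) := by
    intro x hx y hy hxy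
    have e1 := (hB x hx).1
    have e2 := (hB y hy).1
    rw [← Fin.cons_self_tail x, ← Fin.cons_self_tail y, e1, e2]
    have hxy' : x 0 = y 0 := hxy
    rw [hxy']
  rw [← card_image_of_injOn hinj]
  have hsub : B.image (fun x => x 0) ⊆ S'.biUnion fun p =>
      (Icc (-(H : ℤ)) H).filter fun t => (p : ℤ) ∣ f.eval (a 0 + M * t) := by
    intro t ht
    obtain ⟨x, hx, rfl⟩ := mem_image.1 ht
    obtain ⟨e1, e2, p, hp, e3, e4, e5, e6, e7, e8⟩ := hB x hx
    rw [eval_succ, e1] at e6 e7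
    rw [eval_W, e1] at e8
    refine mem_biUnion.2 ⟨p, mem_filter.2 ⟨?_, e4, e3, e7⟩, mem_filter.2 ⟨?_, e8⟩⟩
    · exact Nat.mem_primeFactors.2 ⟨hp, Int.natCast_dvd.1 e6, Int.natAbs_ne_zero.2 hz⟩
    · exact Fintype.mem_piFinset.1 e2 0
  calc (B.image (fun x => x 0)).card ≤ _ := card_le_card hsub
    _ ≤ ∑ p ∈ S', ((Icc (-(H : ℤ)) H).filter
      fun t => (p : ℤ) ∣ f.eval (a 0 + M * t)).card := card_biUnion_le
    _ ≤ ∑ p ∈ S', 2 * D := sum_le_sum hfib
    _ = S'.card * (2 * D) := by rw [sum_const, smul_eq_mul]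
    _ ≤ (h.totalDegree + 1) * (2 * D) := Nat.mul_le_mul_right _ hS'c
    _ = 2 * D * (h.totalDegree + 1) := Nat.mul_comm _ _

end SLgAux

open SLgAux in
theorem SLg_ok (h1 : S_C1) (h4 : S_C4) : S_SLg := by
  classical
  intro k h g W i hg
  refine ⟨2 * (finSuccEquiv ℤ k W).natDegree * (h.totalDegree + 1), by positivity,
    fun Y M a hM => ?_⟩
  obtain ⟨H₀, hH₀⟩ := h4 k h M (Fin.tail a)
  refine ⟨H₀, fun H hH => ?_⟩
  unfold cnt
  generalize hA : Finset.filter (fun x : Fin (k + 1) → ℤ => ∃ p : ℕ, p.Prime ∧ Y < p ∧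
      2 * H + 1 < p ∧ eval (pt M a x) (rename Fin.succ h) ≠ 0 ∧
      (p : ℤ) ∣ eval (pt M a x) (rename Fin.succ h) ∧
      ¬ (p : ℤ) ∣ eval (pt M a x) (rename Fin.succ g) ∧ (p : ℤ) ∣ eval (pt M a x) W)
      (box (k + 1) H) = A
  have hmem : ∀ x ∈ A, x ∈ box (k + 1) H ∧ ∃ p : ℕ, p.Prime ∧ Y < p ∧
      2 * H + 1 < p ∧ eval (pt M a x) (rename Fin.succ h) ≠ 0 ∧
      (p : ℤ) ∣ eval (pt M a x) (rename Fin.succ h) ∧
      ¬ (p : ℤ) ∣ eval (pt M a x) (rename Fin.succ g) ∧ (p : ℤ) ∣ eval (pt M a x) W := by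
    intro x hx
    rw [← hA] at hx
    exact mem_filter.1 hx
  have hmaps : Set.MapsTo (Fin.tail : (Fin (k + 1) → ℤ) → (Fin k → ℤ))
      (A : Set (Fin (k + 1) → ℤ)) (box k H : Set (Fin k → ℤ)) := by
    intro x hx
    have h2 := Fintype.mem_piFinset.1 (hmem x hx).1
    exact mem_coe.2 (Fintype.mem_piFinset.2 fun j => h2 j.succ)
  have hcard : A.card ≤ (2 * H + 1) ^ k *
      (2 * (finSuccEquiv ℤ k W).natDegree * (h.totalDegree + 1)) := by
    rw [card_eq_sum_card_fiberwise hmaps]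
    calc ∑ x' ∈ box k H, (A.filter fun x => Fin.tail x = x').card
        ≤ ∑ x' ∈ box k H, (2 * (finSuccEquiv ℤ k W).natDegree * (h.totalDegree + 1)) := by
          refine sum_le_sum fun x' hx' => ?_
          refine fibre h1 h g W i hg a hM H x' (fun hz S hS => hH₀ H hH x' hx' hz S hS) _
            fun x hx => ?_
          obtain ⟨e1, e2⟩ := mem_filter.1 hx
          exact ⟨e2, hmem x e1⟩
      _ = (2 * H + 1) ^ k * (2 * (finSuccEquiv ℤ k W).natDegree * (h.totalDegree + 1)) := by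
          rw [sum_const, card_box, smul_eq_mul]
  have h2 : (A.card : ℝ) ≤ (((2 * H + 1) ^ k *
      (2 * (finSuccEquiv ℤ k W).natDegree * (h.totalDegree + 1)) : ℕ) : ℝ) := by
    exact_mod_cast hcard
  refine h2.trans (le_of_eq ?_)
  push_cast
  ring

end Pool.Agent.U41.PH
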